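import Pool.Agent.W915.KI.LANO3

/-! LANO, part 4: locality and probabilities. -/

set_option autoImplicit false

namespace Pool.Agent.W915.KI
open H974 H906.Cyl
open H12S (Dir hbE segD rimE H4 Crs Nr sqE)
open Pool.Agent.H160R2.ML (nm)
open Pool.Agent.H160R2.MU (Cel csq cpos EP inSq)
open Pool.Agent.W801.OU
open Pool.Agent.W808.KZ (vp fp AdmZ ZCr)
open Pool.Agent.W424.KI

namespace LANO
open Pool.Agent.H160R2.MU.TLAND (nm_le nm_eq tc ediv_near sg ok2 pr_false)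
open Pool.Agent.W808.KZ.TLAND (dco_f dco_t pc pc_inj pc_zero pc_one sh sh0 sh1t sh1f Gc mem_Gc Hon
  rz_mono Bd In Aj sgt sgf rz_congr bd_of mem_box_iff transport)
open H12S (Win win_half H4_bound win_arm_of win_blk)
open H12S.EP2 (pr_biUnion choose_M)

theorem crx_congr {D R : ℤ} {G G' : Set Edg} (h : ∀ e ∈ AnS D R, (e ∈ G ↔ e ∈ G')) {x : ℤ × ℤ} :
    Crx D R G x ↔ Crx D R G' x := by
  unfold Crx
  simp only [rz_congr h]

theorem lando_congr {L r R : ℕ} {C : Cel} {G G' : Set Edg}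
    (h : ∀ e ∈ AnS (L * r : ℕ) R, (e ∈ G ↔ e ∈ G')) : LandO L r C R G ↔ LandO L r C R G' := by
  unfold LandO
  simp only [crx_congr h]

theorem zx_sub {D R : ℕ} (hD : 8 ≤ D) {e : Edg} (h : e ∈ ZX D R) :
    e ∈ AnS D R ∧ e ∉ AnS (2 * D) R := by
  obtain ⟨h1, h2, h3⟩ := h
  refine ⟨h1, ?_⟩
  rw [mem_AnS]
  rw [abs_le] at h2 h3
  have hb : ((D / 8 : ℕ) : ℤ) * 8 ≤ D := by omega
  obtain ⟨p, q, _ | _⟩ := e
  · rw [dco_f] at h3
    simp only [src, tgt, Bool.false_eq_true, if_false] at h2 ⊢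
    omega
  · rw [dco_t] at h3
    simp only [src, tgt, if_true] at h2 ⊢
    omega

theorem bad_congr {r ρ D R : ℕ} (hD : 8 ≤ D) {G G' : Set Edg}
    (h : ∀ e : Edg, e ∈ AnS D R → e ∉ AnS (2 * D) R → (e ∈ G ↔ e ∈ G')) :
    BadI r ρ D R G ↔ BadI r ρ D R G' := by
  have h1 : ∀ c : ℤ, Gx c D R G = Gx c D R G' := by
    intro c
    ext e
    unfold Gx
    constructor
    · rintro ⟨h2, h3, h4⟩
      exact ⟨mem_Gc.2 ((h _ h3 h4).symm.trans (mem_Gc.1 h2)), h3, h4⟩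
    · rintro ⟨h2, h3, h4⟩
      exact ⟨mem_Gc.2 ((h _ h3 h4).trans (mem_Gc.1 h2)), h3, h4⟩
  have h2 : ∀ x y : ℤ × ℤ, RZ {0} (ZX D R) G x y ↔ RZ {0} (ZX D R) G' x y := by
    intro x y
    apply rz_congr
    intro e he
    have h3 := zx_sub hD he
    exact h e h3.1 h3.2
  unfold BadI ZCr
  simp only [h1, h2]

theorem ans_mono {D D' R : ℤ} (h : D ≤ D') : AnS D' R ⊆ AnS D R :=
  fun _ he => ⟨⟨h.trans he.1.1, h.trans he.1.2⟩, he.2⟩

theorem va_mono {D D' R : ℤ} (h : D ≤ D') {G : Set Edg} (hV : VA D R G) : VA D' R G := by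
  obtain ⟨H, h1, h2⟩ := hV
  exact ⟨H, fun e he => h1 e (ans_mono h he), h2⟩

theorem va_congr {D R : ℤ} {G G' : Set Edg} (h : ∀ e ∈ AnS D R, (e ∈ G ↔ e ∈ G')) :
    VA D R G ↔ VA D R G' := by
  constructor
  · rintro ⟨H, h1, h2⟩
    exact ⟨H, fun e he => (h1 e he).trans (h e he), h2⟩
  · rintro ⟨H, h1, h2⟩
    exact ⟨H, fun e he => (h1 e he).trans (h e he).symm, h2⟩

/-- the deterministic part for the annulus -/
theorem det_va (hADJ : S_ADJI) {L r ρ R : ℕ} {G : Set Edg} (hr : 4 ≤ r)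
    (hrρ : 64 * r ≤ ρ) (hρ : 256 * ρ ≤ L * r) (hR : 4 * (L * r) ≤ R)
    (hB : ¬ BadI r ρ (L * r) R G) (hV : VA (L * r : ℕ) R G) : ∃ C, AdmO L C ∧ LandO L r C R G := by
  obtain ⟨H, h1, h2⟩ := hV
  have hB' : ¬ BadI r ρ (L * r) R H := fun h => hB ((bad_congr (by omega)
    (fun e he _ => h1 e he)).1 h)
  obtain ⟨C, h3, h4⟩ := det_x hADJ hr hrρ hρ hR hB' h2
  exact ⟨C, h3, (lando_congr h1).1 h4⟩

theorem h4_sumx {c : ℤ} (hc : c = 0 ∨ c = 1) {C α : ℝ} (hC : 0 < C) {κ : ℝ}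
    (hw : ∀ n, Win (1 / 2) κ n)
    (hH4 : ∀ (q : ℝ) (n : ℕ), Win q κ n → ∀ r ρ : ℕ, 1 ≤ r → r ≤ ρ → ρ ≤ n →
      ∀ (d : Dir) (x0 y0 : ℤ) (S : Finset Edg), hbE d x0 y0 ρ ⊆ S →
      Pr (fun _ => q) S (fun F => H4 d x0 y0 r ρ ↑F) ≤ C * ((r : ℝ) / ρ) ^ (1 + α))
    {s K m D R : ℕ} (hs : 1 ≤ s) (hD : D ≤ K * s) (hm : 8 ≤ m) (hR : 4 * D ≤ R) :
    Pr (fun _ => (1 / 2 : ℝ)) (boxE R) (fun F => ∃ (d : Dir) (i : ℤ),
      |(s : ℤ) * i| + 2 * (m * s : ℕ) + 8 ≤ D ∧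
      H4 d (cX c d D (s * i)).1 (cX c d D (s * i)).2 (8 * s) (m * s) (Gx c D R (↑F : Set Edg))) ≤
      (8 * K + 4) * (C * (8 / m) ^ (1 + α)) := by
  let T : Finset (Dir × ℤ) := (Finset.univ : Finset Dir) ×ˢ Finset.Icc (-(K : ℤ)) K
  let B : Dir × ℤ → Finset Edg → Prop := fun p F => |(s : ℤ) * p.2| + 2 * (m * s : ℕ) + 8 ≤ D ∧
    H4 p.1 (cX c p.1 D (s * p.2)).1 (cX c p.1 D (s * p.2)).2 (8 * s) (m * s)
      (Gx c D R (↑F : Set Edg))
  have hcover : Pr (fun _ => (1 / 2 : ℝ)) (boxE R) (fun F => ∃ (d : Dir) (i : ℤ),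
      |(s : ℤ) * i| + 2 * (m * s : ℕ) + 8 ≤ D ∧
      H4 d (cX c d D (s * i)).1 (cX c d D (s * i)).2 (8 * s) (m * s) (Gx c D R (↑F : Set Edg))) ≤
      Pr (fun _ => (1 / 2 : ℝ)) (boxE R) (fun F => ∃ p ∈ T, B p F) := by
    refine Pr_mono ok2 fun F _ hF => ?_
    obtain ⟨d, i, h1, h2⟩ := hF
    refine ⟨(d, i), ?_, h1, h2⟩
    have hD' : (D : ℤ) ≤ K * s := by exact_mod_cast hD
    have h3 : |i| ≤ K := H12S.FP2.abs_bound hs (by omega)
    rw [abs_le] at h3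
    simp only [T, Finset.mem_product, Finset.mem_univ, Finset.mem_Icc, true_and]
    exact h3
  have hB : ∀ p ∈ T, Pr (fun _ => (1 / 2 : ℝ)) (boxE R) (B p) ≤ C * (8 / m) ^ (1 + α) := by
    intro p _
    by_cases hp : |(s : ℤ) * p.2| + 2 * (m * s : ℕ) + 8 ≤ D
    · have hms : 8 * s ≤ m * s := Nat.mul_le_mul_right s hm
      have hR' : 4 * (D : ℤ) ≤ R := by exact_mod_cast hR
      set Hb := hbE p.1 (cX c p.1 D (s * p.2)).1 (cX c p.1 D (s * p.2)).2 (m * s) with hHb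
      have hT : ∀ e ∈ Hb, sh c e ∈ boxE R := fun e he =>
        mem_box_iff.2 (ans_sub (hbx_ends hc hp hR' he).2.1)
      have h1 : Pr (fun _ => (1 / 2 : ℝ)) (boxE R) (B p) ≤
          Pr (fun _ => (1 / 2 : ℝ)) (boxE R) (fun F =>
            H4 p.1 (cX c p.1 D (s * p.2)).1 (cX c p.1 D (s * p.2)).2 (8 * s) (m * s)
              (Gc c (↑F : Set Edg) ∩ ↑Hb)) := by
        refine Pr_mono ok2 fun F _ hF => ?_
        have h2 := hF.2
        have hset : (Gc c (↑F : Set Edg) ∩ ↑Hb) ∩ ↑Hb = Gx c D R (↑F : Set Edg) ∩ ↑Hb := by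
          ext e
          constructor
          · rintro ⟨⟨h3, h4⟩, -⟩
            have h5 := hbx_ends hc hp hR' (Finset.mem_coe.1 h4)
            exact ⟨⟨h3, h5.2.1, h5.2.2.2⟩, h4⟩
          · rintro ⟨⟨h3, -⟩, h4⟩
            exact ⟨⟨h3, h4⟩, h4⟩
        unfold H4 H12S.H3g at h2 ⊢
        rw [← hHb] at h2 ⊢
        rw [hset]
        exact h2
      refine h1.trans ?_
      rw [transport hc hT (fun E => H4 p.1 (cX c p.1 D (s * p.2)).1 (cX c p.1 D (s * p.2)).2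
        (8 * s) (m * s) E)]
      refine (hH4 (1 / 2) (m * s) (hw _) (8 * s) (m * s) (by omega) hms le_rfl p.1
          _ _ _ (Finset.Subset.refl _)).trans_eq ?_
      have hs' : (0 : ℝ) < s := by exact_mod_cast hs
      have hm' : (0 : ℝ) < m := by exact_mod_cast (by omega : 0 < m)
      congr 2
      push_cast
      field_simp
    · rw [pr_false (boxE R) (A := B p) fun F h => hp h.1]
      positivity
  have hT : (T.card : ℝ) = 8 * K + 4 := by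
    have e1 : (Finset.Icc (-(K : ℤ)) K).card = 2 * K + 1 := by
      rw [Int.card_Icc]
      omega
    have e3 : (Finset.univ : Finset Dir).card = 4 := rfl
    have e4 : T.card = 4 * (2 * K + 1) := by
      simp only [T, Finset.card_product, e1, e3]
    rw [e4]
    push_cast
    ring
  refine hcover.trans ((pr_biUnion (by norm_num) (by norm_num) (boxE R) T B).trans
    ((Finset.sum_le_sum hB).trans ?_))
  rw [Finset.sum_const, nsmul_eq_mul, hT]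

theorem probx (hZC : Pool.Agent.W808.KZ.S_ZC) (δ : ℝ) (hδ : 0 < δ) (K0 : ℕ) :
    ∃ L B : ℕ, K0 ≤ L ∧ 64 ≤ B ∧ 256 * B ≤ L ∧ ∀ r R : ℕ, 1 ≤ r → 4 * (L * r) ≤ R →
    Pr (fun _ => (1 / 2 : ℝ)) (boxE R)
      (fun F => BadI r (B * r) (L * r) R (↑F : Set Edg)) ≤ δ := by
  obtain ⟨κ, hκ, hw⟩ := win_half
  obtain ⟨C1, c1, hC1, hc1, harm⟩ := win_arm_of
    (by intro q κ n h m hm hmn c1 c2 S; exact win_blk h hm hmn c1 c2 S) κ hκ
  obtain ⟨C2, c2, hC2, hc2, hH4⟩ := H4_bound κ hκ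
  have hδ4 : 0 < δ / 4 := by positivity
  obtain ⟨K, hK, hZ⟩ := hZC (δ / 4) hδ4
  obtain ⟨M1, hM1, hM1'⟩ := choose_M 1 0 C1 4 (by positivity) le_rfl hC1.le (by norm_num) hc1
    hδ4 (16 * K + 64 + K0)
  obtain ⟨B, hB, hB'⟩ := choose_M (8 * (8 * M1)) 4 C2 8 (by positivity) (by positivity) hC2.le
    (by norm_num) hc2 hδ4 64
  have e1 : 64 * B ≤ M1 * B := Nat.mul_le_mul_right B (by omega)
  have e2 : (16 * K) * B ≤ M1 * B := Nat.mul_le_mul_right B (by omega)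
  have e0 : K0 * 1 ≤ M1 * B := Nat.mul_le_mul (by omega) (by omega)
  refine ⟨8 * (M1 * B), B, by omega, hB, by omega, ?_⟩
  intro r R hr hR
  set L := 8 * (M1 * B) with hL
  have hR8 : L * r / 8 = M1 * (B * r) := by
    rw [hL, show 8 * (M1 * B) * r = 8 * (M1 * (B * r)) by ring]
    omega
  have hρ1 : 1 ≤ B * r := Nat.mul_pos (by omega) (by omega)
  have e3 : 64 * (B * r) ≤ M1 * (B * r) := Nat.mul_le_mul_right _ (by omega)
  have hNr : L * r = 8 * (M1 * (B * r)) := by rw [hL]; ring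
  -- corners
  have s1 : Pr (fun _ => (1 / 2 : ℝ)) (boxE R) (fun F => ∃ s1 s2 : Bool,
      Crs (sg s1 (L * r : ℕ)) (sg s2 (L * r : ℕ)) (4 * (B * r)) (L * r / 8)
        (Gx 0 (L * r : ℕ) R (↑F : Set Edg))) ≤ δ / 4 := by
    have h1 : Pr (fun _ => (1 / 2 : ℝ)) (boxE R) (fun F => ∃ s1 s2 : Bool,
        Crs (sg s1 (L * r : ℕ)) (sg s2 (L * r : ℕ)) (4 * (B * r)) (L * r / 8)
        (Gx 0 (L * r : ℕ) R (↑F : Set Edg))) ≤ Pr (fun _ => (1 / 2 : ℝ)) (boxE R) (fun F =>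
          ∃ p ∈ (Finset.univ : Finset (Bool × Bool)),
          Crs (sg p.1 (L * r : ℕ)) (sg p.2 (L * r : ℕ)) (4 * (B * r)) (L * r / 8)
            (↑F : Set Edg)) := by
      refine Pr_mono ok2 fun F _ hF => ?_
      obtain ⟨a, b, x, y, h1, h2, h3⟩ := hF
      refine ⟨(a, b), Finset.mem_univ _, x, y, h1, h2, h3.mono ?_⟩
      rintro e ⟨h4, -⟩
      have h5 := (mem_Gc.1 h4).2 rfl
      rw [sh0] at h5
      exact h5
    refine h1.trans ((pr_biUnion (by norm_num) (by norm_num) _ _ _).trans ?_)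
    have h2 : ∀ p ∈ (Finset.univ : Finset (Bool × Bool)), Pr (fun _ => (1 / 2 : ℝ)) (boxE R)
        (fun F => Crs (sg p.1 (L * r : ℕ)) (sg p.2 (L * r : ℕ)) (4 * (B * r))
          (L * r / 8) (↑F : Set Edg)) ≤ C1 * (4 / (M1 : ℝ)) ^ c1 := by
      intro p _
      refine ((harm (1 / 2) (L * r / 8) (hw _) (4 * (B * r)) (L * r / 8) (by omega) ?_
        le_rfl (sg p.1 (L * r : ℕ)) (sg p.2 (L * r : ℕ)) (boxE R)).1).trans_eq ?_
      · rw [hR8]
        omega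
      · rw [hR8]
        have hp' : (0 : ℝ) < (B * r : ℕ) := by exact_mod_cast hρ1
        have hm' : (0 : ℝ) < M1 := by exact_mod_cast (by omega : 0 < M1)
        congr 2
        rw [Nat.cast_mul 4, Nat.cast_mul M1]
        generalize ((B * r : ℕ) : ℝ) = t at hp'
        field_simp
        norm_num
    refine (Finset.sum_le_sum h2).trans ?_
    rw [Finset.sum_const, nsmul_eq_mul]
    refine le_trans (le_of_eq ?_) hM1'
    have hm' : (0 : ℝ) < M1 := by exact_mod_cast (by omega : 0 < M1)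
    have hcard : ((Finset.univ : Finset (Bool × Bool)).card : ℝ) = 4 := by norm_num
    rw [hcard, Real.rpow_add (by positivity), Real.rpow_one]
    field_simp
    ring
  -- the zipper
  have s0 : Pr (fun _ => (1 / 2 : ℝ)) (boxE R) (fun F =>
      ZCr {0} (ZX (L * r) R) (↑F : Set Edg) (-(2 * (L * r : ℕ) : ℤ)) (16 * (B * r) : ℕ)
        (L * r / 8 : ℕ)) ≤ δ / 4 := by
    refine hZ (16 * (B * r)) (L * r / 8) (-(2 * (L * r : ℕ) : ℤ)) (by omega) ?_ (by omega)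
      (boxE R) (ZX (L * r) R) (fun e he => mem_box_iff.2 (ans_sub he.1)) (fun e he => he.2)
    rw [hR8]
    calc K * (16 * (B * r)) = (16 * K) * (B * r) := by ring
      _ ≤ M1 * (B * r) := Nat.mul_le_mul_right _ (by omega)
  have s2 := h4_sumx (c := 0) (Or.inl rfl) hC2 hw hH4 (s := r) (K := L) (m := B) (D := L * r)
    hr le_rfl (by omega) hR
  have s3 := h4_sumx (c := 1) (Or.inr rfl) hC2 hw hH4 (s := r) (K := L) (m := B) (D := L * r)
    hr le_rfl (by omega) hR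
  have s2' : (8 * ((L : ℕ) : ℝ) + 4) * (C2 * (8 / (B : ℝ)) ^ (1 + c2)) ≤ δ / 4 := by
    refine le_trans (le_of_eq ?_) hB'
    rw [hL]
    push_cast
    ring
  unfold BadI
  refine (Pr_or_le ok2 _ _ _).trans ?_
  have t1 := Pr_or_le ok2 (boxE R) (fun F =>
      ZCr {0} (ZX (L * r) R) (↑F : Set Edg) (-(2 * (L * r : ℕ) : ℤ)) (16 * (B * r) : ℕ)
        (L * r / 8 : ℕ)) (fun F => (∃ (d : Dir) (i : ℤ),
      |(r : ℤ) * i| + 2 * (B * r : ℕ) + 8 ≤ (L * r : ℕ) ∧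
      H4 d (cX 0 d (L * r : ℕ) (r * i)).1 (cX 0 d (L * r : ℕ) (r * i)).2 (8 * r) (B * r)
        (Gx 0 (L * r : ℕ) R (↑F : Set Edg))) ∨ (∃ (d : Dir) (i : ℤ),
      |(r : ℤ) * i| + 2 * (B * r : ℕ) + 8 ≤ (L * r : ℕ) ∧
      H4 d (cX 1 d (L * r : ℕ) (r * i)).1 (cX 1 d (L * r : ℕ) (r * i)).2 (8 * r) (B * r)
        (Gx 1 (L * r : ℕ) R (↑F : Set Edg))))
  have t2 := Pr_or_le ok2 (boxE R) (fun F => ∃ (d : Dir) (i : ℤ),
      |(r : ℤ) * i| + 2 * (B * r : ℕ) + 8 ≤ (L * r : ℕ) ∧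
      H4 d (cX 0 d (L * r : ℕ) (r * i)).1 (cX 0 d (L * r : ℕ) (r * i)).2 (8 * r) (B * r)
        (Gx 0 (L * r : ℕ) R (↑F : Set Edg))) (fun F => ∃ (d : Dir) (i : ℤ),
      |(r : ℤ) * i| + 2 * (B * r : ℕ) + 8 ≤ (L * r : ℕ) ∧
      H4 d (cX 1 d (L * r : ℕ) (r * i)).1 (cX 1 d (L * r : ℕ) (r * i)).2 (8 * r) (B * r)
        (Gx 1 (L * r : ℕ) R (↑F : Set Edg)))
  linarith

end LANO

open LANO in
open Pool.Agent.H160R2.MU.TLAND (ok2) in
open Pool.Agent.W808.KZ.TLAND (mem_box_iff) in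
/-- landing of the annulus at its inner boundary -/
theorem t_LANO : S_ADJI → Pool.Agent.W808.KZ.S_ZC → S_LANO := by
  classical
  intro hADJ hZC δ hδ K
  obtain ⟨L, B, hLK, hB, hBL, hP⟩ := probx hZC δ hδ K
  refine ⟨L, hLK, (Finset.range 4 ×ˢ Finset.Ico (-(L : ℤ)) L).filter (AdmO L),
    fun c hc => (Finset.mem_filter.1 hc).2, 4, ?_⟩
  intro r R hr hR
  set Cs := (Finset.range 4 ×ˢ Finset.Ico (-(L : ℤ)) L).filter (AdmO L) with hCs
  have h1 : 64 * r ≤ B * r := Nat.mul_le_mul_right r hB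
  have h2 : 256 * (B * r) ≤ L * r := by
    calc 256 * (B * r) = 256 * B * r := by ring
      _ ≤ L * r := Nat.mul_le_mul_right r hBL
  have hcast : ((2 * (L * r) : ℕ) : ℤ) = 2 * ((L * r : ℕ) : ℤ) := by push_cast; ring
  have hcov : vA (L * r) R ≤ Pr (fun _ => (1 / 2 : ℝ)) (boxE R) (fun F =>
      (VA (2 * (L * r) : ℕ) R (↑F : Set Edg) ∧ BadI r (B * r) (L * r) R (↑F : Set Edg)) ∨
      ∃ c ∈ Cs, LandO L r c R (↑F : Set Edg)) := by
    unfold vA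
    refine Pr_mono ok2 fun F _ hF => ?_
    by_cases hb : BadI r (B * r) (L * r) R (↑F : Set Edg)
    · exact Or.inl ⟨va_mono (by rw [hcast]; omega) hF, hb⟩
    · right
      obtain ⟨c, hc, hc'⟩ := det_va hADJ hr h1 h2 hR hb hF
      refine ⟨c, ?_, hc'⟩
      rw [hCs, Finset.mem_filter]
      refine ⟨?_, hc⟩
      unfold AdmO at hc
      rw [Finset.mem_product, Finset.mem_range, Finset.mem_Ico]
      omega
  set S : Finset Edg := (boxE R).filter (fun e => e ∈ AnS (2 * (L * r) : ℕ) R) with hS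
  have hind : Pr (fun _ => (1 / 2 : ℝ)) (boxE R) (fun F =>
      (VA (2 * (L * r) : ℕ) R (↑F : Set Edg) ∧ BadI r (B * r) (L * r) R (↑F : Set Edg))) =
      Pr (fun _ => (1 / 2 : ℝ)) (boxE R) (fun F => VA (2 * (L * r) : ℕ) R (↑F : Set Edg)) *
      Pr (fun _ => (1 / 2 : ℝ)) (boxE R)
        (fun F => BadI r (B * r) (L * r) R (↑F : Set Edg)) := by
    refine Pr_indep (S := S) (T := boxE R \ S) (Finset.filter_subset _ _) Finset.sdiff_subset
      Finset.disjoint_sdiff (fun F _ => ?_) (fun F _ => ?_)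
    · apply va_congr
      intro e he
      rw [Finset.mem_coe, Finset.mem_coe, Finset.mem_inter, hS, Finset.mem_filter]
      exact ⟨fun h => ⟨h, mem_box_iff.2 (ans_sub he), he⟩, fun h => h.1⟩
    · apply bad_congr (by omega)
      intro e he1 he2
      rw [Finset.mem_coe, Finset.mem_coe, Finset.mem_inter, Finset.mem_sdiff, hS,
        Finset.mem_filter]
      refine ⟨fun h => ⟨h, mem_box_iff.2 (ans_sub he1), fun h3 => he2 ?_⟩, fun h => h.1⟩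
      rw [← hcast]
      exact h3.2
  have hsp0 : 0 ≤ vA (2 * (L * r)) R := Pr_nonneg ok2 _ _
  refine hcov.trans ((Pr_or_le ok2 _ _ _).trans (add_le_add ?_ (Pr_exists_le ok2 _ _ _)))
  rw [hind, mul_comm]
  exact mul_le_mul_of_nonneg_right (hP r R (by omega) hR) hsp0

end Pool.Agent.W915.KI
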