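import Pool.Agent.W424.KI.Stm
import Pool.Agent.W808.KZ.T_LAND5

/-! LANO, part 1: exterior half balls of both classes. -/

set_option autoImplicit false

namespace Pool.Agent.W915.KI
open H974 H906.Cyl
open H12S (Dir hbE segD rimE H4 Crs Nr sqE)
open Pool.Agent.H160R2.ML (nm)
open Pool.Agent.H160R2.MU (Cel csq cpos EP inSq)
open Pool.Agent.W801.OU
open Pool.Agent.W808.KZ (vp fp AdmZ ZCr)
open Pool.Agent.W424.KI

namespace LANO
open Pool.Agent.H160R2.MU.TLAND (nm_le nm_eq tc ediv_near sg cl cl_lt)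
open Pool.Agent.W808.KZ.TLAND (dco_f dco_t pc pc_inj pc_zero pc_one sh sh0 sh1t sh1f Gc mem_Gc Hon
  mem_zp cor_hon cor_pos cor_par corner_pos rz_mono exit_z lz_of rz_of_reach Tip mem_box_iff
  hon_of dg_hon' pc_par eqv_iff eqv_mono)

/-- exit of a region away from the zipper, with a collapse `κ` of the edges outside `S` (with the
position of the last edge) -/
theorem exit_d {c : ℤ} (hc : c = 0 ∨ c = 1) {B G S : Set Edg} {κ : Vtx → Vtx} {P : Vtx → Prop}
    (hP : ∀ v, P v → (pc c v).2 ≤ 0 → (pc c v).1 < -1 ∨ 1 < (pc c v).1)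
    (hS : ∀ e ∈ Gc c G, sh c e ∈ B → (P (src e) ∨ P (tgt e)) →
      κ (src e) = κ (tgt e) ∨ (κ (src e) = src e ∧ κ (tgt e) = tgt e ∧ e ∈ S))
    {u : Vtx} {y : ℤ × ℤ} (h : RZ {0} B G (pc c u) y) (hu : P u)
    (hy : ∀ v, y = pc c v → ¬ P v) :
    ∃ z, ¬ P z ∧ Reach (Gc c G ∩ S) (κ u) (κ z) ∧ ∃ e, e ∈ Gc c G ∧ sh c e ∈ B ∧
      ((src e = z ∧ P (tgt e)) ∨ (tgt e = z ∧ P (src e))) := by
  by_contra hA
  have step : ∀ e ∈ Gc c G, sh c e ∈ B → ∀ v w : Vtx,
      ((src e = v ∧ tgt e = w) ∨ (src e = w ∧ tgt e = v)) →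
      (P v ∧ Reach (Gc c G ∩ S) (κ u) (κ v)) → (P w ∧ Reach (Gc c G ∩ S) (κ u) (κ w)) := by
    intro e he hB v w hvw hv
    have hr : Reach (Gc c G ∩ S) (κ u) (κ w) := by
      rcases hS e he hB (by rcases hvw with ⟨h1, -⟩ | ⟨-, h1⟩ <;> rw [h1] <;> tauto) with
        h1 | ⟨h1, h2, h3⟩
      · rcases hvw with ⟨h4, h5⟩ | ⟨h4, h5⟩
        · rw [h4, h5] at h1
          rw [← h1]
          exact hv.2
        · rw [h4, h5] at h1
          rw [h1]
          exact hv.2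
      · refine Relation.ReflTransGen.tail hv.2 ⟨e, ⟨he, h3⟩, ?_⟩
        rcases hvw with ⟨h4, h5⟩ | ⟨h4, h5⟩
        · rw [h4] at h1; rw [h5] at h2
          rw [h1, h2]; exact Or.inl ⟨h4, h5⟩
        · rw [h4] at h1; rw [h5] at h2
          rw [h1, h2]; exact Or.inr ⟨h4, h5⟩
    refine ⟨?_, hr⟩
    by_contra hw
    refine hA ⟨w, hw, hr, e, he, hB, ?_⟩
    rcases hvw with ⟨h4, h5⟩ | ⟨h4, h5⟩
    · exact Or.inr ⟨h5, by rw [h4]; exact hv.1⟩
    · exact Or.inl ⟨h4, by rw [h5]; exact hv.1⟩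
  have key : ∀ a b : ℤ × ℤ, LZ {0} B G a b →
      ((∃ v, a = pc c v ∧ P v ∧ Reach (Gc c G ∩ S) (κ u) (κ v)) ↔
        (∃ v, b = pc c v ∧ P v ∧ Reach (Gc c G ∩ S) (κ u) (κ v))) := by
    rintro a b ⟨g, hgB, -, hg⟩
    have hcl : ∀ c' : ℤ, (c' = 0 ∨ c' = 1) → Dg {0} c' g a b → ∀ v, (pc c v = a ∨ pc c v = b) →
        P v → ∃ e, g = sh c e ∧ a = pc c (src e) ∧ b = pc c (tgt e) ∧ c' = c := by
      intro c' hc' hd v hv hPv
      have hh : Hon g := hon_of hd hv (hP v hPv)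
      obtain ⟨e, h1, h2, h3⟩ := dg_hon' hc' hh hd
      have hcc : c' = c := by
        rw [← pc_par hc v]
        rcases hv with h4 | h4
        · rw [h4, h2, pc_par hc']
        · rw [h4, h3, pc_par hc']
      subst hcc
      exact ⟨e, h1, h2, h3, rfl⟩
    have hmain : ∀ v, (pc c v = a ∨ pc c v = b) → P v →
        ∃ e, e ∈ Gc c G ∧ sh c e ∈ B ∧ a = pc c (src e) ∧ b = pc c (tgt e) := by
      intro v hv hPv
      rcases hg with ⟨h1, h2⟩ | ⟨h1, h2⟩
      · obtain ⟨e, h3, h4, h5, h6⟩ := hcl 0 (Or.inl rfl) h2 v hv hPv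
        rw [h3] at h1 hgB
        exact ⟨e, mem_Gc.2 ⟨fun _ => h6.symm, fun _ => h1⟩, hgB, h4, h5⟩
      · obtain ⟨e, h3, h4, h5, h6⟩ := hcl 1 (Or.inr rfl) h2 v hv hPv
        rw [h3] at h1 hgB
        exact ⟨e, mem_Gc.2 ⟨fun h => absurd h h1, fun h => by omega⟩, hgB, h4, h5⟩
    constructor
    · rintro ⟨v, h1, h2, h3⟩
      obtain ⟨e, h4, h5, h6, h7⟩ := hmain v (Or.inl h1.symm) h2
      have h8 : v = src e := pc_inj (h1.symm.trans h6)
      have := step e h4 h5 v (tgt e) (Or.inl ⟨h8.symm, rfl⟩) ⟨h2, h3⟩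
      exact ⟨tgt e, h7, this⟩
    · rintro ⟨v, h1, h2, h3⟩
      obtain ⟨e, h4, h5, h6, h7⟩ := hmain v (Or.inr h1.symm) h2
      have h8 : v = tgt e := pc_inj (h1.symm.trans h7)
      have := step e h4 h5 v (src e) (Or.inr ⟨rfl, h8.symm⟩) ⟨h2, h3⟩
      exact ⟨src e, h6, this⟩
  obtain ⟨v, h1, h2, -⟩ := (eqv_iff _ key h).1 ⟨u, rfl, hu, Reach.refl _ _⟩
  exact hy v h1 h2

/-- centre of the exterior half ball of class `c` -/
def cX (c : ℤ) (d : Dir) (D x : ℤ) : ℤ × ℤ :=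
  match d with
  | Dir.up => (x, D)
  | Dir.dn => (x, -D - c)
  | Dir.rt => (D, x)
  | Dir.lf => (-D - c, x)

/-- the region of class `c` outside of the side -/
def Rx (c : ℤ) (d : Dir) (D : ℤ) (v : Vtx) : Prop :=
  match d with
  | Dir.up => D - c ≤ v.2
  | Dir.dn => v.2 ≤ -D
  | Dir.rt => D - c ≤ v.1
  | Dir.lf => v.1 ≤ -D

/-- the inner faces are moved to the outer ones -/
def kx (c : ℤ) (d : Dir) (D : ℤ) (v : Vtx) : Vtx :=
  match d with
  | Dir.up => (v.1, max v.2 D)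
  | Dir.dn => (v.1, min v.2 (-D - c))
  | Dir.rt => (max v.1 D, v.2)
  | Dir.lf => (min v.1 (-D - c), v.2)

def onx (c : ℤ) (d : Dir) (D : ℤ) (v : Vtx) : Prop :=
  match d with
  | Dir.up => v.2 = D
  | Dir.dn => v.2 = -D - c
  | Dir.rt => v.1 = D
  | Dir.lf => v.1 = -D - c

/-- the interior of the half ball -/
def Px (c : ℤ) (d : Dir) (D x : ℤ) (b : ℕ) (v : Vtx) : Prop :=
  |v.1 - (cX c d D x).1| < b ∧ |v.2 - (cX c d D x).2| < b

theorem mem_AnS {d R : ℤ} {e : Edg} : e ∈ AnS d R ↔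
    (¬ ((-(d - 1) ≤ (src e).1 ∧ (src e).1 ≤ d - 1) ∧ (-(d - 1) ≤ (src e).2 ∧ (src e).2 ≤ d - 1)) ∧
      ¬ ((-(d - 1) ≤ (tgt e).1 ∧ (tgt e).1 ≤ d - 1) ∧ (-(d - 1) ≤ (tgt e).2 ∧ (tgt e).2 ≤ d - 1))) ∧
    ((-R ≤ (src e).1 ∧ (src e).1 ≤ R) ∧ (-R ≤ (src e).2 ∧ (src e).2 ≤ R)) ∧
    ((-R ≤ (tgt e).1 ∧ (tgt e).1 ≤ R) ∧ (-R ≤ (tgt e).2 ∧ (tgt e).2 ≤ R)) := by
  unfold AnS
  rw [Set.mem_ofPred_eq, ← nm_le, ← nm_le, ← nm_le, ← nm_le]
  omega

/-- the edges of class `c` of the squares of the annulus -/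
theorem geox {c D R x : ℤ} (hc : c = 0 ∨ c = 1) {d : Dir} {b : ℕ} (hx : |x| + b + 4 ≤ D)
    {e : Edg} (h : sh c e ∈ AnS D R)
    (hP : (Rx c d D (src e) ∧ Px c d D x b (kx c d D (src e))) ∨
      (Rx c d D (tgt e) ∧ Px c d D x b (kx c d D (tgt e)))) :
    (kx c d D (src e) = kx c d D (tgt e) ∨ (kx c d D (src e) = src e ∧ kx c d D (tgt e) = tgt e ∧
      e ∈ (↑(hbE d (cX c d D x).1 (cX c d D x).2 b) : Set Edg))) ∧
      Rx c d D (src e) ∧ Rx c d D (tgt e) := by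
  rw [mem_AnS] at h
  have hx1 := le_abs_self x
  have hx2 := neg_abs_le x
  unfold Px at hP
  simp only [abs_lt] at hP
  rw [Finset.mem_coe]
  obtain ⟨p, q, _ | _⟩ := e
  · rcases hc with rfl | rfl
    · rw [sh0] at h
      simp only [src, tgt, Bool.false_eq_true, if_false] at h hP ⊢
      cases d <;> simp only [cX, Rx, kx, hbE, mem_RE_false, Prod.mk.injEq, true_and, and_true] at h hP ⊢ <;> omega
    · rw [sh1f] at h
      simp only [src, tgt, Bool.false_eq_true, if_false, if_true] at h hP ⊢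
      cases d <;> simp only [cX, Rx, kx, hbE, mem_RE_false, Prod.mk.injEq, true_and, and_true] at h hP ⊢ <;> omega
  · rcases hc with rfl | rfl
    · rw [sh0] at h
      simp only [src, tgt, if_true] at h hP ⊢
      cases d <;> simp only [cX, Rx, kx, hbE, mem_RE_true, Prod.mk.injEq, true_and, and_true] at h hP ⊢ <;> omega
    · rw [sh1t] at h
      simp only [src, tgt, Bool.false_eq_true, if_false, if_true] at h hP ⊢
      cases d <;> simp only [cX, Rx, kx, hbE, mem_RE_true, Prod.mk.injEq, true_and, and_true] at h hP ⊢ <;> omega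

/-- position of the edges of an exterior half ball -/
theorem hbx_ends {c : ℤ} (hc : c = 0 ∨ c = 1) {d : Dir} {D R x : ℤ} {b : ℕ}
    (hx : |x| + 2 * b + 8 ≤ D) (hR : 4 * D ≤ R) {e : Edg}
    (he : e ∈ hbE d (cX c d D x).1 (cX c d D x).2 b) :
    (Rx c d D (src e) ∧ Rx c d D (tgt e)) ∧ sh c e ∈ AnS D R ∧ Hon (sh c e) ∧
      sh c e ∉ AnS (2 * D) R := by
  have hx1 := le_abs_self x
  have hx2 := neg_abs_le x
  rw [mem_AnS, mem_AnS]
  obtain ⟨p, q, _ | _⟩ := e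
  · rcases hc with rfl | rfl
    · rw [sh0]
      unfold Hon
      rw [dco_f]
      simp only [src, tgt, Bool.false_eq_true, if_false]
      cases d <;> simp only [cX, Rx, hbE, mem_RE_false] at he ⊢ <;>
        refine ⟨by omega, by omega, by omega, by omega⟩
    · rw [sh1f]
      unfold Hon
      rw [dco_t]
      simp only [src, tgt, Bool.false_eq_true, if_false, if_true]
      cases d <;> simp only [cX, Rx, hbE, mem_RE_false] at he ⊢ <;>
        refine ⟨by omega, by omega, by omega, by omega⟩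
  · rcases hc with rfl | rfl
    · rw [sh0]
      unfold Hon
      rw [dco_t]
      simp only [src, tgt, if_true]
      cases d <;> simp only [cX, Rx, hbE, mem_RE_true] at he ⊢ <;>
        refine ⟨by omega, by omega, by omega, by omega⟩
    · rw [sh1t]
      unfold Hon
      rw [dco_f]
      simp only [src, tgt, Bool.false_eq_true, if_false, if_true]
      cases d <;> simp only [cX, Rx, hbE, mem_RE_true] at he ⊢ <;>
        refine ⟨by omega, by omega, by omega, by omega⟩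

/-- a point of the closed half ball outside its interior is on the rim -/
theorem rimx {c : ℤ} {d : Dir} {D x : ℤ} {b : ℕ} {z : Vtx} (hz : ¬ Px c d D x b z)
    (h : (∃ e ∈ hbE d (cX c d D x).1 (cX c d D x).2 b, src e = z ∨ tgt e = z)) :
    z ∈ rimE d (cX c d D x).1 (cX c d D x).2 b := by
  obtain ⟨e, he, hez⟩ := h
  have hin : ∀ a b' c' d' : ℤ, e ∈ RE a b' c' d' → inR a b' c' d' z := by
    intro a b' c' d' he'
    unfold inR
    obtain ⟨p, q, _ | _⟩ := e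
    · rw [mem_RE_false] at he'
      simp only [src, tgt, Bool.false_eq_true, if_false] at hez
      rcases hez with rfl | rfl <;> dsimp only <;> omega
    · rw [mem_RE_true] at he'
      simp only [src, tgt, if_true] at hez
      rcases hez with rfl | rfl <;> dsimp only <;> omega
  have hz' : ¬ (|z.1 - (cX c d D x).1| < b ∧ |z.2 - (cX c d D x).2| < b) := hz
  rw [abs_lt, abs_lt] at hz'
  cases d <;> simp only [cX, hbE, rimE, Set.mem_ofPred_eq] at * <;>
    have h2 := hin _ _ _ _ he <;> refine ⟨h2, ?_⟩ <;> unfold inR at h2 <;> omega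

theorem px_of {c : ℤ} {d : Dir} {D x : ℤ} {a b : ℕ} (hab : a < b) {u : Vtx}
    (hd : onx c d D (kx c d D u)) (hx : |tc d u - x| ≤ a) : Px c d D x b (kx c d D u) := by
  unfold Px
  rw [abs_le] at hx
  cases d <;> simp only [cX, onx, kx, tc] at * <;> rw [abs_lt, abs_lt] <;> omega

theorem sgx_of {c : ℤ} {d : Dir} {D x : ℤ} {a : ℕ} {u : Vtx}
    (hd : onx c d D (kx c d D u)) (hx : |tc d u - x| ≤ a) :
    kx c d D u ∈ segD d (cX c d D x).1 (cX c d D x).2 a := by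
  rw [abs_le] at hx
  cases d <;> simp only [cX, onx, kx, tc, segD, Set.mem_ofPred_eq] at * <;> omega

/-- the points of the half ball are away from the zipper -/
theorem px_hon {c : ℤ} (hc : c = 0 ∨ c = 1) {d : Dir} {D x : ℤ} {b : ℕ}
    (hx : |x| + 2 * b + 8 ≤ D) {v : Vtx} (h1 : Rx c d D v) (h2 : Px c d D x b (kx c d D v)) :
    (pc c v).2 ≤ 0 → (pc c v).1 < -1 ∨ 1 < (pc c v).1 := by
  have hx1 := le_abs_self x
  have hx2 := neg_abs_le x
  obtain ⟨h4, h5⟩ := h2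
  rw [abs_lt] at h4 h5
  unfold pc
  cases d <;> simp only [cX, Rx, kx] at h1 h4 h5 ⊢ <;> omega

/-- points which touch the outside of the large box are far away -/
theorem tou_far {R : ℤ} {y : ℤ × ℤ} (h : Tou R y) {c : ℤ} (hc : c = 0 ∨ c = 1) {v : Vtx}
    (hv : y = pc c v) : ¬ ((-(R - 4) ≤ v.1 ∧ v.1 ≤ R - 4) ∧ (-(R - 4) ≤ v.2 ∧ v.2 ≤ R - 4)) := by
  obtain ⟨e, he, h1⟩ := h
  have h2 : (((y.1 = e.1 + e.2.1 ∨ y.1 = e.1 + e.2.1 + 1) ∨
      (dco e < 0 ∧ y.1 = -1 ∧ (e.1 + e.2.1 = 0 ∨ e.1 + e.2.1 + 1 = 0))) ∧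
      (y.2 = dco e ∨ y.2 = dco e + 1)) := by
    rcases h1 with h1 | h1
    · exact (cor_pos h1).1
    · exact (cor_pos h1).1
  unfold bxz at he
  rw [Set.mem_ofPred_eq, nm_le, nm_le] at he
  subst hv
  unfold pc at h2
  obtain ⟨p, q, _ | _⟩ := e
  · rw [dco_f] at h2
    simp only [src, tgt, Bool.false_eq_true, if_false] at he h2
    omega
  · rw [dco_t] at h2
    simp only [src, tgt, if_true] at he h2
    omega

/-- two different clusters near a boundary point -/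
theorem two_x {c : ℤ} (hc : c = 0 ∨ c = 1) {D R x : ℤ} {d : Dir} {a b : ℕ} {G : Set Edg}
    (hab : a < b) (hx : |x| + 2 * b + 8 ≤ D) (hR : 4 * D ≤ R) {u u' : Vtx}
    (hu : Rx c d D u) (hud : onx c d D (kx c d D u)) (hux : |tc d u - x| ≤ a)
    (hu' : Rx c d D u') (hud' : onx c d D (kx c d D u')) (hux' : |tc d u' - x| ≤ a)
    (hk : RZ {0} (AnS D R) G (pc c u) (pc c (kx c d D u)))
    (hk' : RZ {0} (AnS D R) G (pc c u') (pc c (kx c d D u')))
    (h : Crx D R G (pc c u)) (h' : Crx D R G (pc c u'))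
    (hne : ¬ RZ {0} (AnS D R) G (pc c u) (pc c u')) :
    H4 d (cX c d D x).1 (cX c d D x).2 a b (Gc c G) := by
  have hx0 := abs_nonneg x
  have hx1 := le_abs_self x
  have hx2 := neg_abs_le x
  have hex : ∀ (u : Vtx), Rx c d D u → onx c d D (kx c d D u) → |tc d u - x| ≤ a →
      Crx D R G (pc c u) →
      ∃ z ∈ rimE d (cX c d D x).1 (cX c d D x).2 b,
        Reach (Gc c G ∩ ↑(hbE d (cX c d D x).1 (cX c d D x).2 b)) (kx c d D u) z := by
    intro u hu hud hux hcr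
    obtain ⟨y, h, hy⟩ := hcr
    have hPu := px_of hab hud hux
    obtain ⟨z, hz, hr, e, heG, he, hez⟩ := exit_d hc (κ := kx c d D)
      (P := fun v => Rx c d D v ∧ Px c d D x b (kx c d D v))
      (S := (↑(hbE d (cX c d D x).1 (cX c d D x).2 b) : Set Edg))
      (fun v hv => px_hon hc hx hv.1 hv.2) (fun e _ h1 h2 => (geox hc (by omega) h1 h2).1) h
      ⟨hu, hPu⟩ (by
        rintro v hv ⟨h3, h4, h5⟩
        apply tou_far hy hc hv
        rw [abs_lt] at h4 h5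
        cases d <;> simp only [cX, Rx, kx] at h3 h4 h5 ⊢ <;> omega)
    have hRz : Rx c d D z := by
      rcases hez with ⟨h1, h2⟩ | ⟨h1, h2⟩
      · rw [← h1]
        exact (geox hc (by omega) he (Or.inr h2)).2.1
      · rw [← h1]
        exact (geox hc (by omega) he (Or.inl h2)).2.2
    have hz' : ¬ Px c d D x b (kx c d D z) := fun h => hz ⟨hRz, h⟩
    refine ⟨kx c d D z, rimx hz' ?_, hr⟩
    rcases Relation.ReflTransGen.cases_tail hr with h5 | ⟨y, -, e, ⟨-, he⟩, hyz⟩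
    · rw [h5] at hz'
      exact absurd hPu hz'
    · exact ⟨e, Finset.mem_coe.1 he, by tauto⟩
  refine ⟨_, sgx_of hud hux, _, sgx_of hud' hux', hex u hu hud hux h,
    hex u' hu' hud' hux' h', fun hr => hne ?_⟩
  have h3 : RZ {0} (AnS D R) G (pc c (kx c d D u)) (pc c (kx c d D u')) := by
    refine rz_of_reach hc (S := (↑(hbE d (cX c d D x).1 (cX c d D x).2 b) : Set Edg)) ?_ hr
    intro e he
    have h1 := hbx_ends hc hx hR (Finset.mem_coe.1 he)
    exact ⟨h1.2.1, h1.2.2.1⟩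
  exact Relation.EqvGen.trans _ _ _ hk (Relation.EqvGen.trans _ _ _ h3
    (Relation.EqvGen.symm _ _ hk'))

end LANO

end Pool.Agent.W915.KI
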