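import Pool.Agent.W915.KI.LANO1

/-! LANO, part 2: touching points at the inner circle. -/

set_option autoImplicit false

namespace Pool.Agent.W915.KI
open H974 H906.Cyl
open H12S (Dir hbE segD rimE H4 Crs Nr sqE)
open Pool.Agent.H160R2.ML (nm)
open Pool.Agent.H160R2.MU (Cel csq cpos EP inSq)
open Pool.Agent.W801.OU
open Pool.Agent.W808.KZ (vp fp AdmZ ZCr)
open Pool.Agent.W424.KI

namespace LANO
open Pool.Agent.H160R2.MU.TLAND (nm_le nm_eq tc ediv_near sg)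
open Pool.Agent.W808.KZ.TLAND (dco_f dco_t pc pc_inj pc_zero pc_one sh sh0 sh1t sh1f Gc mem_Gc Hon
  mem_zp cor_hon cor_pos cor_par corner_pos rz_mono exit_z lz_of rz_of_reach Tip mem_box_iff
  hon_of dg_hon' pc_par eqv_iff eqv_mono Bd In Aj sgt sgf rz_congr)

/-- on the side `d` of the circle (vertices, or inner faces) -/
def ons (c : ℤ) (d : Dir) (D : ℤ) (v : Vtx) : Prop :=
  match d with
  | Dir.up => v.2 = D - c
  | Dir.dn => v.2 = -D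
  | Dir.rt => v.1 = D - c
  | Dir.lf => v.1 = -D

theorem ons_rx {c D : ℤ} {d : Dir} {v : Vtx} (h : ons c d D v) : Rx c d D v := by
  cases d <;> simp only [ons, Rx] at * <;> omega

theorem ons_onx {c D : ℤ} (hc : c = 0 ∨ c = 1) {d : Dir} {v : Vtx} (h : ons c d D v) :
    onx c d D (kx c d D v) := by
  cases d <;> simp only [ons, onx, kx] at * <;> omega

/-- a boundary point is linked to the outside -/
theorem link_x {c : ℤ} (hc : c = 0 ∨ c = 1) {D R : ℤ} {G : Set Edg} {d : Dir} {u : Vtx}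
    (hR : 4 * D ≤ R) (hud : ons c d D u) (ht : |tc d u| + 8 ≤ D) (h : Crx D R G (pc c u)) :
    RZ {0} (AnS D R) G (pc c u) (pc c (kx c d D u)) := by
  have ht1 := le_abs_self (tc d u)
  have ht2 := neg_abs_le (tc d u)
  rcases hc with rfl | rfl
  · have h1 : kx 0 d D u = u := by
      cases d <;> simp only [ons, kx] at * <;> apply Prod.ext <;> dsimp only <;> omega
    rw [h1]
    exact Relation.EqvGen.refl _
  · obtain ⟨y, hy, hty⟩ := h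
    obtain ⟨z, hz, -, e, heG, he, hez⟩ := exit_d (c := 1) (Or.inr rfl) (κ := id)
      (P := fun v => v = u) (S := {e | sh 1 e ∈ AnS D R}) (B := AnS D R) (G := G) (u := u) (y := y)
      (by
        rintro w rfl
        unfold pc
        cases d <;> simp only [ons, tc] at * <;> omega)
      (fun e _ h3 _ => Or.inr ⟨rfl, rfl, h3⟩) hy rfl (by
        rintro v hv rfl
        apply tou_far hty (Or.inr rfl) hv
        cases d <;> simp only [ons, tc] at * <;> omega)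
    have hHon : Hon (sh 1 e) := by
      unfold Hon
      obtain ⟨a, b, _ | _⟩ := e
      · rw [sh1f, dco_t]
        simp only [src, tgt, Bool.false_eq_true, if_false] at hez ⊢
        rcases hez with ⟨-, h4⟩ | ⟨-, h4⟩ <;> rw [← h4] at hud ht ht1 ht2 <;>
          cases d <;> simp only [ons, tc] at * <;> omega
      · rw [sh1t, dco_f]
        simp only [src, tgt, if_true] at hez ⊢
        rcases hez with ⟨-, h4⟩ | ⟨-, h4⟩ <;> rw [← h4] at hud ht ht1 ht2 <;>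
          cases d <;> simp only [ons, tc] at * <;> omega
    have hzk : z = kx 1 d D u := by
      have he2 := he
      rw [mem_AnS] at he2
      obtain ⟨u1, u2⟩ := u
      obtain ⟨z1, z2⟩ := z
      obtain ⟨a, b, _ | _⟩ := e
      · rw [sh1f] at he2
        simp only [src, tgt, Bool.false_eq_true, if_false, if_true, Prod.mk.injEq] at hez he2 hz
        cases d <;> simp only [ons, kx, tc, Prod.mk.injEq, true_and, and_true] at * <;> omega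
      · rw [sh1t] at he2
        simp only [src, tgt, Bool.false_eq_true, if_false, if_true, Prod.mk.injEq] at hez he2 hz
        cases d <;> simp only [ons, kx, tc, Prod.mk.injEq, true_and, and_true] at * <;> omega
    have hl : RZ {0} (AnS D R) G (pc 1 (src e)) (pc 1 (tgt e)) :=
      Relation.EqvGen.rel _ _ (lz_of (Or.inr rfl) heG he hHon)
    rw [← hzk]
    rcases hez with ⟨h3, h4⟩ | ⟨h3, h4⟩
    · rw [h3, h4] at hl; exact Relation.EqvGen.symm _ _ hl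
    · rw [h3, h4] at hl; exact hl

theorem same_x {c : ℤ} (hc : c = 0 ∨ c = 1) {D ρ l : ℤ} {d : Dir} {u v : Vtx}
    (hud : ons c d D u) (ht : |tc d u| + 2 * ρ < D) (hl : l + 2 ≤ ρ) (hl0 : 0 ≤ l)
    (hv : Bd c D v) (h1 : |u.1 - v.1| ≤ l) (h2 : |u.2 - v.2| ≤ l) :
    ons c d D v ∧ |tc d v - tc d u| ≤ l := by
  obtain ⟨hv1, hv2⟩ := hv
  unfold In at hv1
  rw [abs_le] at h1 h2
  have ht2 := abs_lt.1 (show |tc d u| < D - 2 * ρ by omega)
  clear ht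
  cases d <;> simp only [ons, tc] at * <;> rw [abs_le] <;> omega

/-- different clusters touch the circle far from each other -/
theorem far_x {c : ℤ} (hc : c = 0 ∨ c = 1) {D ρ r R : ℕ} {G : Set Edg} (hr : 1 ≤ r)
    (hrρ : 64 * r ≤ ρ) (hρ : 64 * ρ ≤ D) (hR : 4 * D ≤ R)
    (hB : ¬ ∃ (d : Dir) (i : ℤ), |(r : ℤ) * i| + 2 * ρ + 8 ≤ D ∧
      H4 d (cX c d D (r * i)).1 (cX c d D (r * i)).2 (8 * r) ρ (Gc c G)) {d : Dir} {u v : Vtx}
    (hud : ons c d D u) (ht : |tc d u| + 3 * ρ < D) (hv : Bd c D v)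
    (h : Crx D R G (pc c u)) (h' : Crx D R G (pc c v))
    (hne : ¬ RZ {0} (AnS D R) G (pc c u) (pc c v)) :
    ¬ (|u.1 - v.1| ≤ 4 * r ∧ |u.2 - v.2| ≤ 4 * r) := by
  rintro ⟨h1, h2⟩
  obtain ⟨hvd, hvt⟩ := same_x (l := 4 * r) (ρ := ρ) hc hud (by omega) (by omega) (by omega) hv h1 h2
  obtain ⟨e1, e2⟩ := ediv_near (t := tc d u) hr
  rw [abs_le] at hvt
  have ht2 := abs_lt.1 (by omega : |tc d u| < (D : ℤ) - 3 * ρ)
  have hx : |(r : ℤ) * (tc d u / r)| + 2 * ρ + 8 ≤ D := by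
    have : |(r : ℤ) * (tc d u / r)| ≤ (D : ℤ) - 2 * ρ - 8 := by rw [abs_le]; omega
    omega
  have hR' : 4 * (D : ℤ) ≤ R := by exact_mod_cast hR
  have hk := link_x hc hR' hud (by omega) h
  have hk' := link_x hc hR' hvd (by
    have : |tc d v| ≤ (D : ℤ) - 8 := by rw [abs_le]; omega
    omega) h'
  refine hB ⟨d, tc d u / r, hx, ?_⟩
  refine two_x hc (by omega) hx hR' (ons_rx hud) (ons_onx hc hud) ?_ (ons_rx hvd) (ons_onx hc hvd)
    ?_ hk hk' h h' hne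
  · rw [abs_le]; push_cast; omega
  · rw [abs_le]; push_cast; omega

/-! ### touching points -/

theorem touch_hon_x {D R : ℤ} (hD : 8 ≤ D) (hR : 4 * D ≤ R) {e e' : Edg}
    (he : e ∈ bxz R ∧ e ∉ AnS D R) (he' : e' ∈ AnS D R) {c c' : ℤ} {x : ℤ × ℤ}
    (h : Cor {0} c e x) (h' : Cor {0} c' e' x)
    (hfar : ¬ (|x.1| ≤ 8 ∧ |x.2 + 2 * D| ≤ 8)) : Hon e ∧ Hon e' := by
  have h1 := cor_pos h
  have h2 := cor_pos h'
  clear h h'
  obtain ⟨x1, x2⟩ := x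
  rw [mem_AnS] at he he'
  unfold bxz at he
  rw [Set.mem_ofPred_eq, nm_le, nm_le] at he
  rw [abs_le, abs_le] at hfar
  dsimp only at hfar h1 h2
  unfold Hon
  obtain ⟨p, q, _ | _⟩ := e <;> obtain ⟨p', q', _ | _⟩ := e' <;>
    simp only [src, tgt, Bool.false_eq_true, if_false, if_true, dco_f, dco_t] at * <;> omega

theorem core_x {D R : ℤ} {f f' : Edg} {v p : Vtx} (he : sh 1 f ∈ bxz R ∧ sh 1 f ∉ AnS D R)
    (he' : sh 1 f' ∈ AnS D R)
    (h1 : v = src (sh 1 f) ∨ v = tgt (sh 1 f)) (h2 : v = src (sh 1 f') ∨ v = tgt (sh 1 f'))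
    (h3 : p = src f ∨ p = tgt f) (h4 : p = src f' ∨ p = tgt f') :
    nm v = D ∧ Bd 1 D p ∧ Aj v p := by
  rw [mem_AnS] at he he'
  unfold bxz at he
  rw [Set.mem_ofPred_eq, nm_le, nm_le] at he
  have key : ((-D ≤ v.1 ∧ v.1 ≤ D) ∧ (-D ≤ v.2 ∧ v.2 ≤ D)) ∧
      ¬ ((-(D - 1) ≤ v.1 ∧ v.1 ≤ D - 1) ∧ (-(D - 1) ≤ v.2 ∧ v.2 ≤ D - 1)) ∧
      Bd 1 D p ∧ Aj v p := by
    obtain ⟨v1, v2⟩ := v
    obtain ⟨p1, p2⟩ := p
    unfold Bd In Aj
    obtain ⟨a, b, _ | _⟩ := f <;> obtain ⟨a', b', _ | _⟩ := f' <;>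
      simp only [sh1t, sh1f, src, tgt, Bool.false_eq_true, if_false, if_true,
        Prod.mk.injEq] at * <;> omega
  obtain ⟨k1, k2, k3, k4⟩ := key
  have k5 := nm_le.2 k1
  have k6 : ¬ nm v ≤ D - 1 := fun h => k2 (nm_le.1 h)
  exact ⟨by omega, k3, k4⟩

/-- touching points: a vertex `x` and an inner face `y` -/
def TchX (D : ℤ) (x y : ℤ × ℤ) : Prop :=
  ∃ v p : Vtx, x = vp v ∧ y = fp p ∧ nm v = D ∧ Bd 1 D p ∧ Aj v p

theorem touch0_x {D R : ℤ} {x y : ℤ × ℤ} {e e' : Edg} (he : e ∈ bxz R ∧ e ∉ AnS D R)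
    (he' : e' ∈ AnS D R) (hh : Hon e) (hh' : Hon e') (h0 : Cor {0} 0 e x) (h1 : Cor {0} 1 e y)
    (h0' : Cor {0} 0 e' x) (h1' : Cor {0} 1 e' y) : TchX D x y := by
  obtain ⟨e1, v, h2, h3, h4⟩ := cor_hon (Or.inl rfl) hh h0
  obtain ⟨e1', v', h2', h3', h4'⟩ := cor_hon (Or.inl rfl) hh' h0'
  obtain ⟨f, p, h5, h6, h7⟩ := cor_hon (Or.inr rfl) hh h1
  obtain ⟨f', p', h5', h6', h7'⟩ := cor_hon (Or.inr rfl) hh' h1'
  have hv : v = v' := pc_inj (h4.symm.trans h4')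
  have hp : p = p' := pc_inj (h7.symm.trans h7')
  subst hv hp
  rw [sh0] at h2 h2'
  subst h2 h2'
  have := core_x (D := D) (R := R) (v := v) (p := p) (f := f) (f' := f') (by rw [← h5]; exact he)
    (by rw [← h5']; exact he') (by rw [← h5]; exact h3) (by rw [← h5']; exact h3') h6 h6'
  exact ⟨v, p, h4.trans (pc_zero v), h7.trans (pc_one p), this⟩

theorem touch_x {D R : ℤ} (hD : 8 ≤ D) (hR : 4 * D ≤ R) {x y : ℤ × ℤ} {e e' : Edg}
    (he : e ∈ bxz R ∧ e ∉ AnS D R) (he' : e' ∈ AnS D R)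
    (h : (Cor {0} 0 e x ∧ Cor {0} 1 e y) ∨ (Cor {0} 1 e x ∧ Cor {0} 0 e y))
    (h' : (Cor {0} 0 e' x ∧ Cor {0} 1 e' y) ∨ (Cor {0} 1 e' x ∧ Cor {0} 0 e' y))
    (hfar : ¬ (|x.1| ≤ 8 ∧ |x.2 + 2 * D| ≤ 8)) : TchX D x y ∨ TchX D y x := by
  have hh : Hon e ∧ Hon e' := by
    rcases h with ⟨h1, -⟩ | ⟨h1, -⟩ <;> rcases h' with ⟨h2, -⟩ | ⟨h2, -⟩ <;>
      exact touch_hon_x hD hR he he' h1 h2 hfar
  rcases h with ⟨h1, h2⟩ | ⟨h1, h2⟩ <;> rcases h' with ⟨h3, h4⟩ | ⟨h3, h4⟩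
  · exact Or.inl (touch0_x he he' hh.1 hh.2 h1 h2 h3 h4)
  · have := cor_par (Or.inl rfl) hh.1 h1
    rw [cor_par (Or.inr rfl) hh.2 h3] at this
    norm_num at this
  · have := cor_par (Or.inr rfl) hh.1 h1
    rw [cor_par (Or.inl rfl) hh.2 h3] at this
    norm_num at this
  · exact Or.inr (touch0_x he he' hh.1 hh.2 h2 h1 h4 h3)

/-! ### the bad event -/

/-- the configuration of class `c` in the annulus `[D, 2D]` -/
def Gx (c : ℤ) (D R : ℤ) (G : Set Edg) : Set Edg :=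
  Gc c G ∩ {e | sh c e ∈ AnS D R ∧ sh c e ∉ AnS (2 * D) R}

/-- the squares near the point where the zipper enters the annulus -/
def ZX (D R : ℕ) : Set Edg :=
  {e | e ∈ AnS D R ∧ |e.1 + e.2.1| ≤ 2 * (D / 8 : ℕ) ∧ |dco e - -(2 * D : ℤ)| ≤ 2 * (D / 8 : ℕ)}

def BadI (r ρ D R : ℕ) (G : Set Edg) : Prop :=
  (∃ s1 s2 : Bool, Crs (sg s1 D) (sg s2 D) (4 * ρ) (D / 8) (Gx 0 D R G)) ∨
  ZCr {0} (ZX D R) G (-(2 * D : ℤ)) (16 * ρ : ℕ) (D / 8 : ℕ) ∨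
  (∃ (d : Dir) (i : ℤ), |(r : ℤ) * i| + 2 * ρ + 8 ≤ D ∧
    H4 d (cX 0 d D (r * i)).1 (cX 0 d D (r * i)).2 (8 * r) ρ (Gx 0 D R G)) ∨
  (∃ (d : Dir) (i : ℤ), |(r : ℤ) * i| + 2 * ρ + 8 ≤ D ∧
    H4 d (cX 1 d D (r * i)).1 (cX 1 d D (r * i)).2 (8 * r) ρ (Gx 1 D R G))

theorem h4_gx {c : ℤ} (hc : c = 0 ∨ c = 1) {D R b a : ℕ} {x : ℤ} {d : Dir} {G : Set Edg}
    (hx : |x| + 2 * b + 8 ≤ D) (hR : 4 * D ≤ R)
    (h : H4 d (cX c d D x).1 (cX c d D x).2 a b (Gc c G)) :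
    H4 d (cX c d D x).1 (cX c d D x).2 a b (Gx c D R G) := by
  have key : Gx c D R G ∩ ↑(hbE d (cX c d D x).1 (cX c d D x).2 b) =
      Gc c G ∩ ↑(hbE d (cX c d D x).1 (cX c d D x).2 b) := by
    ext e
    constructor
    · rintro ⟨⟨h1, -⟩, h2⟩
      exact ⟨h1, h2⟩
    · rintro ⟨h1, h2⟩
      have h3 := hbx_ends hc hx (R := R) (by exact_mod_cast hR) (Finset.mem_coe.1 h2)
      exact ⟨⟨h1, h3.2.1, h3.2.2.2⟩, h2⟩
  unfold H4 H12S.H3g at h ⊢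
  rw [key]
  exact h

/-! ### away from the corners -/

theorem zfar_x {D R ρ : ℕ} {G : Set Edg} (hρ : 256 * ρ ≤ D) (hρ1 : 1 ≤ ρ) (hR : 4 * D ≤ R)
    (hZ : ¬ ZCr {0} (ZX D R) G (-(2 * D : ℤ)) (16 * ρ : ℕ) (D / 8 : ℕ)) {x : ℤ × ℤ}
    (h : Crx D R G x) : ¬ (|x.1| ≤ 16 * ρ ∧ |x.2 + 2 * D| ≤ 16 * ρ) := by
  rintro ⟨h1, h2⟩
  obtain ⟨y, h, hy⟩ := h
  have hb : ((D / 8 : ℕ) : ℤ) * 8 ≤ D ∧ (D : ℤ) < ((D / 8 : ℕ) : ℤ) * 8 + 8 := by omega
  obtain ⟨z, hz, hr⟩ := exit_z (B' := ZX D R)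
    (P := fun z => |z.1| < (D / 8 : ℕ) ∧ |z.2 + 2 * D| < (D / 8 : ℕ)) (by
      intro g hg _ c x y hd hP
      obtain ⟨u, hu, hu2⟩ : ∃ u, (u = x ∨ u = y) ∧ (|u.1| < ((D / 8 : ℕ) : ℤ) ∧
          |u.2 + 2 * D| < ((D / 8 : ℕ) : ℤ)) := by
        rcases hP with hP | hP
        · exact ⟨x, Or.inl rfl, hP⟩
        · exact ⟨y, Or.inr rfl, hP⟩
      have h3 := corner_pos hd hu
      rw [abs_lt, abs_lt] at hu2
      refine ⟨hg, ?_, ?_⟩
      · rw [abs_le]; omega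
      · rw [abs_le]; omega) h ⟨by omega, by omega⟩ (by
      rintro ⟨h4, h3⟩
      rw [abs_lt] at h3 h4
      obtain ⟨e, he, h5⟩ := hy
      have h6 : (((y.1 = e.1 + e.2.1 ∨ y.1 = e.1 + e.2.1 + 1) ∨
          (dco e < 0 ∧ y.1 = -1 ∧ (e.1 + e.2.1 = 0 ∨ e.1 + e.2.1 + 1 = 0))) ∧
          (y.2 = dco e ∨ y.2 = dco e + 1)) := by
        rcases h5 with h5 | h5
        · exact (cor_pos h5).1
        · exact (cor_pos h5).1
      unfold bxz at he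
      rw [Set.mem_ofPred_eq, nm_le, nm_le] at he
      obtain ⟨p, q, _ | _⟩ := e
      · rw [dco_f] at h6
        simp only [src, tgt, Bool.false_eq_true, if_false] at he h6
        omega
      · rw [dco_t] at h6
        simp only [src, tgt, if_true] at he h6
        omega)
  refine hZ ⟨x, z, ?_, ?_, ?_, hr⟩
  · push_cast; exact h1
  · rw [sub_neg_eq_add]
    push_cast
    exact h2
  · rw [sub_neg_eq_add]
    by_contra h3
    exact hz ⟨by omega, by omega⟩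

theorem corner_x {D R ρ : ℕ} {G : Set Edg} (hρ : 256 * ρ ≤ D) (hρ1 : 1 ≤ ρ) (hR : 4 * D ≤ R)
    (hC : ¬ ∃ s1 s2 : Bool, Crs (sg s1 D) (sg s2 D) (4 * ρ) (D / 8) (Gx 0 D R G))
    {d : Dir} {v : Vtx} (hv : nm v = D) (hvd : ons 0 d D v)
    (h : Crx D R G (vp v))
    (hfar : ¬ (|(vp v).1| ≤ 16 * ρ ∧ |(vp v).2 + 2 * D| ≤ 16 * ρ)) : |tc d v| + 4 * ρ < D := by
  by_contra hcon
  rw [not_lt] at hcon
  have hv' := (nm_eq hv).1
  rw [abs_le, abs_le] at hfar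
  unfold vp at hfar
  dsimp only at hfar
  obtain ⟨s1, s2, h0, h1, h2⟩ : ∃ s1 s2 : Bool, (s1 = true ∨ s2 = false) ∧
      |v.1 - sg s1 D| ≤ 4 * ρ ∧ |v.2 - sg s2 D| ≤ 4 * ρ := by
    rcases abs_cases (tc d v) with ⟨ha, -⟩ | ⟨ha, -⟩ <;> rw [ha] at hcon <;> cases d <;>
      simp only [ons, tc] at hvd hcon
    · exact ⟨true, true, Or.inl rfl, by rw [sgt, abs_le]; omega, by rw [sgt, abs_le]; omega⟩
    · exact ⟨true, false, Or.inl rfl, by rw [sgt, abs_le]; omega, by rw [sgf, abs_le]; omega⟩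
    · exact ⟨true, true, Or.inl rfl, by rw [sgt, abs_le]; omega, by rw [sgt, abs_le]; omega⟩
    · exfalso; omega
    · exfalso; omega
    · exact ⟨false, false, Or.inr rfl, by rw [sgf, abs_le]; omega, by rw [sgf, abs_le]; omega⟩
    · exact ⟨true, false, Or.inl rfl, by rw [sgt, abs_le]; omega, by rw [sgf, abs_le]; omega⟩
    · exact ⟨false, false, Or.inr rfl, by rw [sgf, abs_le]; omega, by rw [sgf, abs_le]; omega⟩
  apply hC
  have hsg : (sg s1 (D : ℤ) = D ∧ sg s2 (D : ℤ) = D) ∨ (sg s1 (D : ℤ) = D ∧ sg s2 (D : ℤ) = -D) ∨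
      (sg s1 (D : ℤ) = -D ∧ sg s2 (D : ℤ) = -D) := by
    cases s1 <;> cases s2 <;> simp [sg] at h0 ⊢
  have hD8 : (((D / 8 : ℕ) : ℤ)) * 8 ≤ D ∧ (D : ℤ) < ((D / 8 : ℕ) : ℤ) * 8 + 8 := by omega
  obtain ⟨y, h, hy⟩ := h
  obtain ⟨z, hz, hr, -⟩ := exit_d (c := 0) (Or.inl rfl) (κ := id)
    (P := fun v => |v.1 - sg s1 D| < (D / 8 : ℕ) ∧ |v.2 - sg s2 D| < (D / 8 : ℕ))
    (S := {e | sh 0 e ∈ AnS D R ∧ sh 0 e ∉ AnS (2 * D) R}) (B := AnS D R) (G := G) (u := v) (y := y)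
    (by
      rintro w ⟨h3, h4⟩
      rw [abs_lt] at h3 h4
      unfold pc
      dsimp only
      omega) (by
      intro e _ h3 h4
      right
      refine ⟨rfl, rfl, h3, ?_⟩
      rw [sh0, mem_AnS]
      obtain ⟨p, q, _ | _⟩ := e <;>
        simp only [src, tgt, Bool.false_eq_true, if_false, if_true] at h4 ⊢ <;>
        simp only [abs_lt] at h4 <;> omega)
    (by rw [pc_zero]; exact h) ⟨by omega, by omega⟩ (by
      rintro w hw ⟨h3, h4⟩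
      rw [abs_lt] at h3 h4
      apply tou_far hy (Or.inl rfl) hw
      omega)
  refine ⟨s1, s2, v, z, ?_, ?_, hr⟩
  · rw [abs_le] at h1 h2
    unfold inR
    push_cast
    omega
  · rw [abs_lt, abs_lt] at hz
    omega

/-- the side of the inner face next to a vertex of the circle -/
theorem adj_x {D ρ : ℤ} {d : Dir} {v p : Vtx} (hρ : 1 ≤ ρ) (hD : 256 * ρ ≤ D)
    (hvd : ons 0 d D v) (ht : |tc d v| + 4 * ρ < D) (hp : Bd 1 D p) (ha : Aj v p) :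
    ons 1 d D p ∧ |tc d p| + 3 * ρ < D := by
  have ht2 := abs_lt.1 (show |tc d v| < D - 4 * ρ by omega)
  have key : ∀ t : ℤ, (-(D - 3 * ρ) < t ∧ t < D - 3 * ρ) → |t| + 3 * ρ < D := by
    intro t ht
    have := abs_lt.2 ht
    omega
  clear ht
  unfold Bd In at hp
  unfold Aj at ha
  refine ⟨?_, ?_⟩
  · cases d <;> simp only [ons, tc] at * <;> omega
  · apply key
    cases d <;> simp only [ons, tc] at * <;> omega

end LANO

end Pool.Agent.W915.KI
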