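import Pool.Agent.W915.KI.LANO2

/-! LANO, part 3: the deterministic part. -/

set_option autoImplicit false

namespace Pool.Agent.W915.KI
open H974 H906.Cyl
open H12S (Dir hbE segD rimE H4 Crs Nr sqE)
open Pool.Agent.H160R2.ML (nm)
open Pool.Agent.H160R2.MU (Cel csq cpos EP inSq)
open Pool.Agent.W801.OU
open Pool.Agent.W808.KZ (vp fp AdmZ ZCr)
open Pool.Agent.W424.KI

namespace LANO
open Pool.Agent.H160R2.MU.TLAND (nm_le nm_eq tc ediv_near sg)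
open Pool.Agent.W808.KZ.TLAND (dco_f dco_t pc pc_inj pc_zero pc_one sh sh0 sh1t sh1f Gc mem_Gc Hon
  rz_mono Bd In Aj sgt sgf rz_congr bd_of)

/-- a touching pair: the sector `c` touches in class `0` at `v`, the sector `d` in class `1` at `p` -/
structure TX (D R ρ : ℕ) (H : Set Edg) (c d : ℕ) (v p : Vtx) : Prop where
  hv : RZ {0} (bxz R) H (scz 0 0 c) (vp v)
  hp : RZ {0} (bxz R) H (scz 0 0 d) (fp p)
  cv : Crx D R H (vp v)
  cp : Crx D R H (fp p)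
  nv : nm v = D
  op : Bd 1 D p
  aj : Aj v p
  sd : ∃ s : Dir, ons 0 s D v ∧ |tc s v| + 4 * ρ < D

theorem side_x {D : ℤ} {v : Vtx} (h : nm v = D) : ∃ d, ons 0 d D v := by
  obtain ⟨-, h | h | h | h⟩ := nm_eq h
  · exact ⟨Dir.up, by rw [ons]; omega⟩
  · exact ⟨Dir.rt, by rw [ons]; omega⟩
  · exact ⟨Dir.dn, h⟩
  · exact ⟨Dir.lf, h⟩

theorem tx_of {D R ρ : ℕ} {H : Set Edg} (hρ : 256 * ρ ≤ D) (hρ1 : 1 ≤ ρ) (hR : 4 * D ≤ R)
    (hC : ¬ ∃ s1 s2 : Bool, Crs (sg s1 D) (sg s2 D) (4 * ρ) (D / 8) (Gx 0 D R H))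
    (hZ : ¬ ZCr {0} (ZX D R) H (-(2 * D : ℤ)) (16 * ρ : ℕ) (D / 8 : ℕ))
    {c d : ℕ} {x y : ℤ × ℤ}
    (hx : RZ {0} (bxz R) H (scz 0 0 c) x) (hy : RZ {0} (bxz R) H (scz 0 0 d) y)
    (cx : Crx D R H x) (cy : Crx D R H y) (h : TchX D x y) : ∃ v p, TX D R ρ H c d v p := by
  obtain ⟨v, p, h1, h2, h5, h6, h7⟩ := h
  subst h1 h2
  obtain ⟨s, hs⟩ := side_x h5
  have h8 := zfar_x hρ hρ1 hR hZ cx
  exact ⟨v, p, hx, hy, cx, cy, h5, h6, h7, s, hs, corner_x hρ hρ1 hR hC h5 hs cx h8⟩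

theorem ans_sub {D R : ℤ} : AnS D R ⊆ bxz R := fun _ h => h.2

/-- two touching pairs with different sectors are far from each other -/
theorem far_tx {D R ρ r : ℕ} {H : Set Edg} (hρ : 256 * ρ ≤ D) (hr : 4 ≤ r) (hrρ : 64 * r ≤ ρ)
    (hR : 4 * D ≤ R)
    (hB0 : ¬ ∃ (d : Dir) (i : ℤ), |(r : ℤ) * i| + 2 * ρ + 8 ≤ D ∧
      H4 d (cX 0 d D (r * i)).1 (cX 0 d D (r * i)).2 (8 * r) ρ (Gc 0 H))
    (hB1 : ¬ ∃ (d : Dir) (i : ℤ), |(r : ℤ) * i| + 2 * ρ + 8 ≤ D ∧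
      H4 d (cX 1 d D (r * i)).1 (cX 1 d D (r * i)).2 (8 * r) ρ (Gc 1 H))
    (hS : ∀ c d : ℕ, c < 3 → d < 3 → c ≠ d → ¬ RZ {0} (bxz R) H (scz 0 0 c) (scz 0 0 d))
    {c d c' d' : ℕ} {v p v' p' : Vtx} (hc : c < 3) (hc' : c' < 3) (hd : d < 3) (hd' : d' < 3)
    (hne : c ≠ c' ∨ d ≠ d')
    (h : TX D R ρ H c d v p) (h' : TX D R ρ H c' d' v' p') :
    ¬ (|p.1 - p'.1| ≤ 3 * r ∧ |p.2 - p'.2| ≤ 3 * r) := by
  rintro ⟨ha, hb⟩
  obtain ⟨s, hs1, hs2⟩ := h.sd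
  have haj := h.aj
  have haj' := h'.aj
  unfold Aj at haj haj'
  rcases hne with hne | hne
  · refine far_x (c := 0) (Or.inl rfl) (by omega) hrρ (by omega) hR hB0 hs1 (by omega)
      (bd_of h'.nv) (by rw [pc_zero]; exact h.cv) (by rw [pc_zero]; exact h'.cv) ?_ ?_
    · rw [pc_zero, pc_zero]
      intro h1
      exact hS c c' hc hc' hne (Relation.EqvGen.trans _ _ _ (Relation.EqvGen.trans _ _ _ h.hv
        (rz_mono ans_sub h1)) (Relation.EqvGen.symm _ _ h'.hv))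
    · rw [abs_le] at ha hb
      rw [abs_le, abs_le]
      omega
  · have h1 := adj_x (D := D) (ρ := ρ) (by omega) (by omega) hs1 hs2 h.op h.aj
    refine far_x (c := 1) (Or.inr rfl) (by omega) hrρ (by omega) hR hB1 h1.1 h1.2
      h'.op (by rw [pc_one]; exact h.cp) (by rw [pc_one]; exact h'.cp) ?_ ?_
    · rw [pc_one, pc_one]
      intro h1
      exact hS d d' hd hd' hne (Relation.EqvGen.trans _ _ _ (Relation.EqvGen.trans _ _ _ h.hp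
        (rz_mono ans_sub h1)) (Relation.EqvGen.symm _ _ h'.hp))
    · rw [abs_le] at ha hb
      rw [abs_le, abs_le]
      omega

/-- the position and the distance -/
theorem fps_lip {D : ℤ} (hD : 1 ≤ D) {p p' : Vtx} (hp : Bd 1 D p) (hp' : Bd 1 D p')
    (h : fps D p ≤ fps D p') :
    (-(fps D p' - fps D p) ≤ p.1 - p'.1 ∧ p.1 - p'.1 ≤ fps D p' - fps D p) ∧
    (-(fps D p' - fps D p) ≤ p.2 - p'.2 ∧ p.2 - p'.2 ≤ fps D p' - fps D p) := by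
  unfold Bd In at hp hp'
  unfold fps at h ⊢
  split_ifs at h ⊢ <;> omega

theorem fps_far {D R ρ r : ℕ} {H : Set Edg} (hρ : 256 * ρ ≤ D) (hr : 4 ≤ r) (hrρ : 64 * r ≤ ρ)
    (hR : 4 * D ≤ R)
    (hB0 : ¬ ∃ (d : Dir) (i : ℤ), |(r : ℤ) * i| + 2 * ρ + 8 ≤ D ∧
      H4 d (cX 0 d D (r * i)).1 (cX 0 d D (r * i)).2 (8 * r) ρ (Gc 0 H))
    (hB1 : ¬ ∃ (d : Dir) (i : ℤ), |(r : ℤ) * i| + 2 * ρ + 8 ≤ D ∧
      H4 d (cX 1 d D (r * i)).1 (cX 1 d D (r * i)).2 (8 * r) ρ (Gc 1 H))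
    (hS : ∀ c d : ℕ, c < 3 → d < 3 → c ≠ d → ¬ RZ {0} (bxz R) H (scz 0 0 c) (scz 0 0 d))
    {c d c' d' : ℕ} {v p v' p' : Vtx} (hc : c < 3) (hc' : c' < 3) (hd : d < 3) (hd' : d' < 3)
    (hne : c ≠ c' ∨ d ≠ d')
    (h : TX D R ρ H c d v p) (h' : TX D R ρ H c' d' v' p') (hle : fps D p ≤ fps D p') :
    fps D p + 3 * r < fps D p' := by
  by_contra hcon
  have h1 := fps_lip (D := D) (by omega) h.op h'.op hle
  refine far_tx hρ hr hrρ hR hB0 hB1 hS hc hc' hd hd' hne h h' ?_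
  rw [abs_le, abs_le]
  omega

/-- the cell of a vertex of the circle -/
def clx (d : Dir) (x : ℤ) : Cel :=
  match d with
  | Dir.up => (0, x)
  | Dir.rt => (1, x)
  | Dir.dn => (2, x)
  | Dir.lf => (3, x)

theorem cell_x {L r : ℕ} (hr : 1 ≤ r) {s : Dir} {v p : Vtx} {ρ : ℤ}
    (hρ : 64 * r ≤ ρ) (hs1 : ons 0 s (L * r : ℕ) v) (hs2 : |tc s v| + 4 * ρ < (L * r : ℕ))
    (hop : Bd 1 (L * r : ℕ) p) (haj : Aj v p) :
    inSq r (isq L (clx s (tc s v / r))) v ∧ AdmO L (clx s (tc s v / r)) ∧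
      fps (L * r : ℕ) p - r - 1 ≤ cpos L (clx s (tc s v / r)) * r ∧
      (cpos L (clx s (tc s v / r)) + 1) * r ≤ fps (L * r : ℕ) p + r + 1 := by
  obtain ⟨e1, e2⟩ := ediv_near (t := tc s v) hr
  have hr0 : (0 : ℤ) < r := by exact_mod_cast hr
  have ht := abs_lt.1 (show |tc s v| < ((L * r : ℕ) : ℤ) - 4 * ρ by omega)
  clear hs2
  have hadm : -(L : ℤ) + 8 ≤ tc s v / r ∧ tc s v / r + 9 ≤ L := by
    obtain ⟨h3, h4⟩ := ht
    push_cast at h3 h4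
    constructor
    · rw [Int.le_ediv_iff_mul_le hr0]
      nlinarith
    · have h5 : tc s v / r < L - 8 := by
        rw [Int.ediv_lt_iff_lt_mul hr0]
        nlinarith
      omega
  have hP : (((L * r : ℕ) : ℤ)) = (r : ℤ) * L := by push_cast; ring
  rw [hP] at ht hs1 hop ⊢
  unfold Bd In at hop
  unfold Aj at haj
  set q : ℤ := tc s v / r with hq
  set m : ℤ := (r : ℤ) * q with hm
  set P : ℤ := (r : ℤ) * L with hPdef
  have k1 : (q + (L : ℤ)) * r = m + P := by rw [hm, hPdef]; ring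
  have k2 : (q + (L : ℤ) + 1) * r = m + P + r := by rw [hm, hPdef]; ring
  have k3 : (2 * (L : ℤ) + (L - 1 - q)) * r = 3 * P - r - m := by rw [hm, hPdef]; ring
  have k4 : (2 * (L : ℤ) + (L - 1 - q) + 1) * r = 3 * P - m := by rw [hm, hPdef]; ring
  have k5 : (4 * (L : ℤ) + (L - 1 - q)) * r = 5 * P - r - m := by rw [hm, hPdef]; ring
  have k6 : (4 * (L : ℤ) + (L - 1 - q) + 1) * r = 5 * P - m := by rw [hm, hPdef]; ring
  have k7 : (6 * (L : ℤ) + (q + L)) * r = 7 * P + m := by rw [hm, hPdef]; ring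
  have k8 : (6 * (L : ℤ) + (q + L) + 1) * r = 7 * P + m + r := by rw [hm, hPdef]; ring
  have k9 : (r : ℤ) * ((L : ℤ) - 1) = P - r := by rw [hPdef]; ring
  have k10 : (r : ℤ) * (-(L : ℤ)) = -P := by rw [hPdef]; ring
  refine ⟨?_, ⟨?_, ?_, ?_⟩, ?_, ?_⟩
  · cases s <;> simp only [ons, tc] at hs1 e1 e2 ht <;> simp only [inSq, isq, clx] <;>
      norm_num <;> simp only [k9, k10, ← hm] <;> omega
  · cases s <;> simp [clx]
  · cases s <;> simp only [clx] <;> exact hadm.1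
  · cases s <;> simp only [clx] <;> exact hadm.2
  · unfold fps
    cases s <;> simp only [ons, tc] at hs1 e1 e2 ht <;> simp only [cpos, clx] <;>
      norm_num <;> simp only [k1, k3, k5, k7] <;> split_ifs <;> omega
  · unfold fps
    cases s <;> simp only [ons, tc] at hs1 e1 e2 ht <;> simp only [cpos, clx] <;>
      norm_num <;> simp only [k2, k4, k6, k8] <;> split_ifs <;> omega

theorem inf_x {D r : ℕ} {s : Dir} {v p : Vtx} {ρ : ℤ} (hρ1 : 1 ≤ ρ) (hD : 256 * ρ ≤ D)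
    (hρ : 64 * r ≤ ρ) (hs1 : ons 0 s D v) (hs2 : |tc s v| + 4 * ρ < D)
    (hop : Bd 1 D p) (haj : Aj v p) : InF r D p := by
  obtain ⟨h1, h2⟩ := adj_x hρ1 hD hs1 hs2 hop haj
  unfold InF
  cases s <;> simp only [ons, tc] at h1 h2 <;> omega

/-- three touching pairs in clockwise order -/
theorem mid_x {L R ρ r : ℕ} {H : Set Edg} (hρ : 256 * ρ ≤ L * r) (hr : 4 ≤ r) (hrρ : 64 * r ≤ ρ)
    {c1 d1 c2 d2 c3 d3 : ℕ} {v1 p1 v2 p2 v3 p3 : Vtx}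
    (h1 : TX (L * r) R ρ H c1 d1 v1 p1) (h2 : TX (L * r) R ρ H c2 d2 v2 p2)
    (h3 : TX (L * r) R ρ H c3 d3 v3 p3)
    (h12 : fps (L * r : ℕ) p1 + 3 * r < fps (L * r : ℕ) p2)
    (h23 : fps (L * r : ℕ) p2 + 3 * r < fps (L * r : ℕ) p3) :
    ∃ C, AdmO L C ∧ LandO L r C R H := by
  obtain ⟨s, hs1, hs2⟩ := h2.sd
  obtain ⟨s', hs1', hs2'⟩ := h1.sd
  obtain ⟨s'', hs1'', hs2''⟩ := h3.sd
  obtain ⟨k1, k2, k3, k4⟩ := cell_x (by omega) (ρ := ρ) (by exact_mod_cast hrρ) hs1 hs2 h2.op h2.aj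
  refine ⟨clx s (tc s v2 / r), k2, ⟨v2, k1, h2.nv, h2.cv⟩, ⟨p1, ⟨?_, ?_⟩, h1.cp⟩,
    ⟨p3, ⟨?_, ?_⟩, h3.cp⟩⟩
  · exact inf_x (ρ := ρ) (by omega) (by exact_mod_cast hρ) (by exact_mod_cast hrρ) hs1' hs2'
      h1.op h1.aj
  · omega
  · exact inf_x (ρ := ρ) (by omega) (by exact_mod_cast hρ) (by exact_mod_cast hrρ) hs1'' hs2''
      h3.op h3.aj
  · omega

theorem det_x (hADJ : S_ADJI) {L r ρ R : ℕ} {H : Set Edg} (hr : 4 ≤ r)
    (hrρ : 64 * r ≤ ρ) (hρ : 256 * ρ ≤ L * r) (hR : 4 * (L * r) ≤ R)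
    (hB : ¬ BadI r ρ (L * r) R H) (hSE : SE3 R H) : ∃ C, AdmO L C ∧ LandO L r C R H := by
  have hS := hSE.1
  have hρ1 : 1 ≤ ρ := by omega
  have hC := fun h => hB (Or.inl h)
  have hZ := fun h => hB (Or.inr (Or.inl h))
  have hB0 : ¬ ∃ (d : Dir) (i : ℤ), |(r : ℤ) * i| + 2 * ρ + 8 ≤ (L * r : ℕ) ∧
      H4 d (cX 0 d (L * r : ℕ) (r * i)).1 (cX 0 d (L * r : ℕ) (r * i)).2 (8 * r) ρ (Gc 0 H) := by
    rintro ⟨d, i, h1, h2⟩
    exact hB (Or.inr (Or.inr (Or.inl ⟨d, i, h1, h4_gx (Or.inl rfl) h1 hR h2⟩)))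
  have hB1 : ¬ ∃ (d : Dir) (i : ℤ), |(r : ℤ) * i| + 2 * ρ + 8 ≤ (L * r : ℕ) ∧
      H4 d (cX 1 d (L * r : ℕ) (r * i)).1 (cX 1 d (L * r : ℕ) (r * i)).2 (8 * r) ρ (Gc 1 H) := by
    rintro ⟨d, i, h1, h2⟩
    exact hB (Or.inr (Or.inr (Or.inr ⟨d, i, h1, h4_gx (Or.inr rfl) h1 hR h2⟩)))
  have hR' : 4 * (((L * r : ℕ) : ℤ)) ≤ R := by exact_mod_cast hR
  have hT : ∀ a b : ℕ, a < 3 → b < 3 → a ≠ b →
      ∃ c d v p, ((c = a ∧ d = b) ∨ (c = b ∧ d = a)) ∧ TX (L * r) R ρ H c d v p := by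
    intro a b ha hb hab
    obtain ⟨x, y, e, e', he, he', hx, hy, cx, cy, h1, h2⟩ :=
      hADJ (L * r) R H (by omega) (by omega) hSE a b ha hb hab
    have h3 := zfar_x hρ hρ1 hR hZ cx
    rcases touch_x (by omega) hR' he he' h1 h2 (by
      rintro ⟨h4, h5⟩
      exact h3 ⟨by omega, by omega⟩) with h4 | h4
    · obtain ⟨v, p, h5⟩ := tx_of hρ hρ1 hR hC hZ hx hy cx cy h4
      exact ⟨a, b, v, p, Or.inl ⟨rfl, rfl⟩, h5⟩
    · obtain ⟨v, p, h5⟩ := tx_of hρ hρ1 hR hC hZ hy hx cy cx h4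
      exact ⟨b, a, v, p, Or.inr ⟨rfl, rfl⟩, h5⟩
  obtain ⟨c1, d1, v1, p1, e1, t1⟩ := hT 0 1 (by norm_num) (by norm_num) (by norm_num)
  obtain ⟨c2, d2, v2, p2, e2, t2⟩ := hT 0 2 (by norm_num) (by norm_num) (by norm_num)
  obtain ⟨c3, d3, v3, p3, e3, t3⟩ := hT 1 2 (by norm_num) (by norm_num) (by norm_num)
  have f12 := fun h => fps_far hρ hr hrρ hR hB0 hB1 hS (by omega) (by omega) (by omega) (by omega)
    (by omega) t1 t2 h
  have f21 := fun h => fps_far hρ hr hrρ hR hB0 hB1 hS (by omega) (by omega) (by omega) (by omega)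
    (by omega) t2 t1 h
  have f13 := fun h => fps_far hρ hr hrρ hR hB0 hB1 hS (by omega) (by omega) (by omega) (by omega)
    (by omega) t1 t3 h
  have f31 := fun h => fps_far hρ hr hrρ hR hB0 hB1 hS (by omega) (by omega) (by omega) (by omega)
    (by omega) t3 t1 h
  have f23 := fun h => fps_far hρ hr hrρ hR hB0 hB1 hS (by omega) (by omega) (by omega) (by omega)
    (by omega) t2 t3 h
  have f32 := fun h => fps_far hρ hr hrρ hR hB0 hB1 hS (by omega) (by omega) (by omega) (by omega)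
    (by omega) t3 t2 h
  rcases le_total (fps (L * r : ℕ) p1) (fps (L * r : ℕ) p2) with a | a <;>
    rcases le_total (fps (L * r : ℕ) p1) (fps (L * r : ℕ) p3) with b | b <;>
    rcases le_total (fps (L * r : ℕ) p2) (fps (L * r : ℕ) p3) with c | c
  · exact mid_x hρ hr hrρ t1 t2 t3 (f12 a) (f23 c)
  · exact mid_x hρ hr hrρ t1 t3 t2 (f13 b) (f32 c)
  · have := f12 a; have := f23 c; have := f31 b; omega
  · exact mid_x hρ hr hrρ t3 t1 t2 (f31 b) (f12 a)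
  · exact mid_x hρ hr hrρ t2 t1 t3 (f21 a) (f13 b)
  · have := f21 a; have := f13 b; have := f32 c; omega
  · exact mid_x hρ hr hrρ t2 t3 t1 (f23 c) (f31 b)
  · exact mid_x hρ hr hrρ t3 t2 t1 (f32 c) (f21 a)

end LANO

end Pool.Agent.W915.KI
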